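import Mathlib

/-!
The bi-free Wasserstein distance on tracially bi-partite systems does not satisfy the triangle
inequality.
-/

open Topology ComplexOrder Kronecker

namespace Pool.Agent.Results.MP_fc6efe_an.TriangleFails

/-- A left-right, tracially bi-partite C*-probability space `(A, L, R, φ)`. -/
structure BipartiteSpace where
  /-- the unital C*-algebra -/
  A : Type
  [cstar : CStarAlgebra A]
  /-- the left C*-subalgebra -/
  L : StarSubalgebra ℂ A
  /-- the right C*-subalgebra -/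
  R : StarSubalgebra ℂ A
  closed_L : IsClosed (L : Set A)
  closed_R : IsClosed (R : Set A)
  comm : ∀ x ∈ L, ∀ y ∈ R, x * y = y * x
  /-- the state -/
  φ : A →ₗ[ℂ] ℂ
  φ_one : φ 1 = 1
  φ_pos : ∀ a : A, 0 ≤ φ (star a * a)
  trace_L : ∀ x ∈ L, ∀ y ∈ L, φ (x * y) = φ (y * x)
  trace_R : ∀ x ∈ R, ∀ y ∈ R, φ (x * y) = φ (y * x)

attribute [instance] BipartiteSpace.cstar

/-- `‖Z‖₂ ^ 2 = φ (Z^* Z)`. -/
noncomputable def BipartiteSpace.normSq (S : BipartiteSpace) (Z : S.A) : ℝ :=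
  (S.φ (star Z * Z)).re

/-- A tracially bi-partite system with `n` left and `m` right variables in the space `S`. -/
structure BiSystem (S : BipartiteSpace) (n m : ℕ) where
  /-- the left variables -/
  X : Fin n → S.A
  /-- the right variables -/
  Y : Fin m → S.A
  X_mem : ∀ i, X i ∈ S.L
  Y_mem : ∀ j, Y j ∈ S.R
  X_star : ∀ i, star (X i) = X i
  Y_star : ∀ j, star (Y j) = Y j

namespace BiSystem

variable {S : BipartiteSpace} {n m : ℕ}

/-- The operators of the system, indexed by the left and right indices. -/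
def op (T : BiSystem S n m) : Fin n ⊕ Fin m → S.A := Sum.elim T.X T.Y

/-- The joint moment `φ (Z_1 ⋯ Z_k)` of a word in the operators. -/
noncomputable def moment (T : BiSystem S n m) (w : List (Fin n ⊕ Fin m)) : ℂ :=
  S.φ ((w.map T.op).prod)

/-- `T'` is a copy of `T`: it has the same distribution, and each of its operators has the same
operator norm as the corresponding operator of `T`. -/
def IsCopy {S' : BipartiteSpace} (T' : BiSystem S' n m) (T : BiSystem S n m) : Prop :=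
  (∀ w, T'.moment w = T.moment w) ∧ ∀ k, ‖T'.op k‖ = ‖T.op k‖

/-- The `2`-distance of two systems in the same space. -/
noncomputable def cost (T₁ T₂ : BiSystem S n m) : ℝ :=
  Real.sqrt (∑ i, S.normSq (T₁.X i - T₂.X i) + ∑ j, S.normSq (T₁.Y j - T₂.Y j))

end BiSystem

/-- The bi-free Wasserstein distance: the infimum of the `2`-distances of copies of the two
systems in one space. -/
noncomputable def W₂ {S₁ S₂ : BipartiteSpace} {n m : ℕ} (T₁ : BiSystem S₁ n m)
    (T₂ : BiSystem S₂ n m) : ℝ :=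
  sInf {d : ℝ | ∃ (S : BipartiteSpace) (T₁' T₂' : BiSystem S n m),
    T₁'.IsCopy T₁ ∧ T₂'.IsCopy T₂ ∧ d = T₁'.cost T₂'}

/-! ### The lower bound -/

section lower

variable (S : BipartiteSpace)

/-- Null vectors are orthogonal to everything. -/
lemma null_left {M : S.A} (hM : S.φ (star M * M) = 0) (Z : S.A) :
    S.φ (star Z * M) + S.φ (star M * Z) = 0 := by
  have key : ∀ s : ℝ, 0 ≤ S.φ (star Z * Z) + (s : ℂ) * (S.φ (star Z * M) + S.φ (star M * Z)) := by
    intro s
    have h := S.φ_pos (Z + (s : ℂ) • M)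
    have h1 : star (Z + (s : ℂ) • M) * (Z + (s : ℂ) • M) =
        star Z * Z + (s : ℂ) • (star Z * M) + (s : ℂ) • (star M * Z)
          + ((s : ℂ) * s) • (star M * M) := by
      rw [star_add, star_smul, mul_add, add_mul, add_mul, smul_mul_assoc, mul_smul_comm,
        smul_mul_assoc, mul_smul_comm, smul_smul, Complex.star_def, Complex.conj_ofReal]
      abel
    rw [h1, map_add, map_add, map_add, map_smul, map_smul, map_smul, hM, smul_zero, add_zero,
      smul_eq_mul, smul_eq_mul] at h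
    rw [mul_add, ← add_assoc]
    exact h
  set c := S.φ (star Z * M) + S.φ (star M * Z) with hc
  set z := S.φ (star Z * Z) with hz
  have him : c.im = 0 := by
    have h0 := (Complex.le_def.1 (key 0)).2
    have h1 := (Complex.le_def.1 (key 1)).2
    simp at h0 h1
    linarith
  have hre : c.re = 0 := by
    by_contra hne
    have h1 := (Complex.le_def.1 (key (-(z.re + 1) / c.re))).1
    simp [him] at h1
    rw [div_mul_cancel₀ _ hne] at h1
    linarith
  exact Complex.ext hre him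

lemma null_orth {M : S.A} (hM : S.φ (star M * M) = 0) (Z : S.A) :
    S.φ (star Z * M) = 0 ∧ S.φ (star M * Z) = 0 := by
  have h1 := null_left S hM Z
  have hM' : S.φ (star (Complex.I • M) * (Complex.I • M)) = 0 := by
    rw [star_smul, smul_mul_assoc, mul_smul_comm, smul_smul, map_smul, hM, smul_zero]
  have h2 := null_left S hM' Z
  rw [star_smul, mul_smul_comm, smul_mul_assoc, map_smul, map_smul, smul_eq_mul, smul_eq_mul,
    Complex.star_def, Complex.conj_I] at h2
  have h3 : S.φ (star Z * M) - S.φ (star M * Z) = 0 := by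
    have h4 : Complex.I * (S.φ (star Z * M) - S.φ (star M * Z)) = 0 := by
      rw [← h2]; ring
    rcases mul_eq_zero.1 h4 with h5 | h5
    · exact absurd h5 Complex.I_ne_zero
    · exact h5
  constructor
  · linear_combination (h1 + h3) / 2
  · linear_combination (h1 - h3) / 2

lemma φ_add_null {M : S.A} (hM : S.φ (star M * M) = 0) (Z : S.A) :
    S.φ (star (Z + M) * (Z + M)) = S.φ (star Z * Z) := by
  rw [star_add, mul_add, add_mul, add_mul, map_add, map_add, map_add, hM,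
    (null_orth S hM Z).1, (null_orth S hM Z).2]
  ring

lemma normSq_nonneg (Z : S.A) : 0 ≤ S.normSq Z := by
  have h := (Complex.le_def.1 (S.φ_pos Z)).1
  simpa [BipartiteSpace.normSq] using h

lemma normSq_add_le (a b : S.A) : S.normSq (a + b) ≤ 2 * S.normSq a + 2 * S.normSq b := by
  have h := normSq_nonneg S (a - b)
  have h1 : S.normSq (a + b) + S.normSq (a - b) = 2 * S.normSq a + 2 * S.normSq b := by
    simp only [BipartiteSpace.normSq]
    rw [← Complex.add_re, ← map_add]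
    have : star (a + b) * (a + b) + star (a - b) * (a - b) =
        (2 : ℂ) • (star a * a) + (2 : ℂ) • (star b * b) := by
      rw [star_add, star_sub, two_smul, two_smul]
      noncomm_ring
    rw [this, map_add, map_smul, map_smul]
    simp
  linarith

/-- Right multiplication by `u ∈ L` with `u² = c` in the GNS space. -/
lemma normSq_mul_right {u Z : S.A} (hu : u ∈ S.L) (hZ : Z ∈ S.L) (hus : star u = u) {c : ℝ}
    (hnull : S.φ (star (u * u - (c : ℂ) • 1) * (u * u - (c : ℂ) • 1)) = 0) :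
    S.normSq (Z * u) = c * S.normSq Z := by
  have h1 : S.φ (star (Z * u) * (Z * u)) = S.φ ((star Z * Z) * (u * u)) := by
    rw [star_mul, hus, mul_assoc u, S.trace_L u hu (star Z * (Z * u))
      (mul_mem (star_mem hZ) (mul_mem hZ hu))]
    simp only [mul_assoc]
  have h2 := (null_orth S hnull (star Z * Z)).1
  rw [star_mul, star_star, mul_sub, mul_smul_comm, mul_one, map_sub, map_smul, smul_eq_mul,
    sub_eq_zero] at h2
  simp only [BipartiteSpace.normSq]
  rw [h1, h2]
  simp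

/-- Left multiplication by `u ∈ L` with `u² = c` in the GNS space. -/
lemma normSq_mul_left {u Z : S.A} (hu : u ∈ S.L) (hZ : Z ∈ S.L) (hus : star u = u) {c : ℝ}
    (hnull : S.φ (star (u * u - (c : ℂ) • 1) * (u * u - (c : ℂ) • 1)) = 0) :
    S.normSq (u * Z) = c * S.normSq Z := by
  have h0 : S.φ (star Z * Z) = S.φ (Z * star Z) := S.trace_L _ (star_mem hZ) _ hZ
  have h1 : S.φ (star (u * Z) * (u * Z)) = S.φ ((Z * star Z) * (u * u)) := by
    rw [star_mul, hus, mul_assoc (star Z), S.trace_L (star Z) (star_mem hZ) (u * (u * Z))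
      (mul_mem hu (mul_mem hu hZ))]
    have : u * (u * Z) * star Z = (u * u) * (Z * star Z) := by simp only [mul_assoc]
    rw [this, S.trace_L _ (mul_mem hu hu) _ (mul_mem hZ (star_mem hZ))]
  have h2 := (null_orth S hnull (Z * star Z)).1
  rw [star_mul, star_star, mul_sub, mul_smul_comm, mul_one, map_sub, map_smul, smul_eq_mul,
    sub_eq_zero] at h2
  simp only [BipartiteSpace.normSq]
  rw [h1, h2, h0]
  simp

/-- The moments used in the lower bound. -/
structure Moments (t ε : ℝ) (p x y : S.A) : Prop where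
  pp : S.φ (p * p) = 1
  pppp : S.φ (p * (p * (p * p))) = 1
  xx : S.φ (x * x) = t ^ 2
  xxxx : S.φ (x * (x * (x * x))) = t ^ 4
  xy : S.φ (x * y) = t
  yx : S.φ (y * x) = t
  yy : S.φ (y * y) = 1
  xppx : S.φ (x * (p * (p * x))) = t ^ 2
  xpxp : S.φ (x * (p * (x * p))) = ε * t ^ 2
  pxpx : S.φ (p * (x * (p * x))) = ε * t ^ 2
  pxxp : S.φ (p * (x * (x * p))) = t ^ 2

variable {S}

lemma Moments.null_p {t ε : ℝ} {p x y : S.A} (h : Moments S t ε p x y) (hp : star p = p) :
    S.φ (star (p * p - ((1 : ℝ) : ℂ) • 1) * (p * p - ((1 : ℝ) : ℂ) • 1)) = 0 := by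
  have h1 : star (p * p - ((1 : ℝ) : ℂ) • 1) * (p * p - ((1 : ℝ) : ℂ) • 1) =
      p * (p * (p * p)) - p * p - p * p + 1 := by
    rw [star_sub, star_mul, hp, star_smul, star_one, Complex.ofReal_one, star_one, one_smul]
    noncomm_ring
  rw [h1, map_add, map_sub, map_sub, h.pppp, h.pp, S.φ_one]
  norm_num

lemma Moments.null_x {t ε : ℝ} {p x y : S.A} (h : Moments S t ε p x y) (hx : star x = x) :
    S.φ (star (x * x - ((t ^ 2 : ℝ) : ℂ) • 1) * (x * x - ((t ^ 2 : ℝ) : ℂ) • 1)) = 0 := by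
  have h1 : star (x * x - ((t ^ 2 : ℝ) : ℂ) • 1) * (x * x - ((t ^ 2 : ℝ) : ℂ) • 1) =
      x * (x * (x * x)) - ((t ^ 2 : ℝ) : ℂ) • (x * x) - ((t ^ 2 : ℝ) : ℂ) • (x * x)
        + (((t ^ 2 : ℝ) : ℂ) * ((t ^ 2 : ℝ) : ℂ)) • 1 := by
    rw [star_sub, star_mul, hx, star_smul, star_one, Complex.star_def, Complex.conj_ofReal,
      sub_mul, mul_sub, mul_sub, smul_mul_assoc, one_mul, mul_smul_comm, mul_one, smul_mul_assoc,
      one_mul, smul_smul]
    simp only [mul_assoc]
    abel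
  rw [h1, map_add, map_sub, map_sub, map_smul, map_smul, h.xxxx, h.xx, S.φ_one]
  simp only [smul_eq_mul]
  push_cast
  ring

lemma Moments.null_xy {t ε : ℝ} {p x y : S.A} (h : Moments S t ε p x y) (hx : star x = x)
    (hy : star y = y) : S.φ (star (x - (t : ℂ) • y) * (x - (t : ℂ) • y)) = 0 := by
  have h1 : star (x - (t : ℂ) • y) * (x - (t : ℂ) • y) =
      x * x - (t : ℂ) • (x * y) - (t : ℂ) • (y * x) + ((t : ℂ) * (t : ℂ)) • (y * y) := by
    rw [star_sub, hx, star_smul, hy, Complex.star_def, Complex.conj_ofReal,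
      sub_mul, mul_sub, mul_sub, smul_mul_assoc, mul_smul_comm, mul_smul_comm, smul_mul_assoc,
      smul_smul]
    abel
  rw [h1, map_add, map_sub, map_sub, map_smul, map_smul, map_smul, h.xx, h.xy, h.yx, h.yy]
  simp only [smul_eq_mul]
  ring

lemma Moments.null_comm {t : ℝ} {p x y : S.A} (h : Moments S t 1 p x y) (hp : star p = p)
    (hx : star x = x) : S.φ (star (p * x - x * p) * (p * x - x * p)) = 0 := by
  have h1 : star (p * x - x * p) * (p * x - x * p) =
      x * (p * (p * x)) - x * (p * (x * p)) - p * (x * (p * x)) + p * (x * (x * p)) := by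
    rw [star_sub, star_mul, star_mul, hp, hx]
    noncomm_ring
  rw [h1, map_add, map_sub, map_sub, h.xppx, h.xpxp, h.pxpx, h.pxxp]
  push_cast
  ring

lemma Moments.null_anti {t : ℝ} {p x y : S.A} (h : Moments S t (-1) p x y) (hp : star p = p)
    (hx : star x = x) : S.φ (star (-(p * x + x * p)) * (-(p * x + x * p))) = 0 := by
  have h1 : star (-(p * x + x * p)) * (-(p * x + x * p)) =
      x * (p * (p * x)) + x * (p * (x * p)) + p * (x * (p * x)) + p * (x * (x * p)) := by
    rw [star_neg, star_add, star_mul, star_mul, hp, hx]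
    noncomm_ring
  rw [h1, map_add, map_add, map_add, h.xppx, h.xpxp, h.pxpx, h.pxxp]
  push_cast
  ring

lemma Moments.null_neg {t ε : ℝ} {p x y : S.A} (h : Moments S t ε p x y) (hx : star x = x)
    (hy : star y = y) : S.φ (star (-(x - (t : ℂ) • y)) * (-(x - (t : ℂ) • y))) = 0 := by
  rw [star_neg, neg_mul_neg, h.null_xy hx hy]

lemma lower_bound {t : ℝ} (ht : 0 < t) {p₁ x₁ y₁ p₃ x₃ y₃ : S.A}
    (hp₁ : p₁ ∈ S.L) (hx₁ : x₁ ∈ S.L) (hp₃ : p₃ ∈ S.L) (hx₃ : x₃ ∈ S.L)
    (sp₁ : star p₁ = p₁) (sx₁ : star x₁ = x₁) (sy₁ : star y₁ = y₁)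
    (sp₃ : star p₃ = p₃) (sx₃ : star x₃ = x₃) (sy₃ : star y₃ = y₃)
    (h₁ : Moments S t 1 p₁ x₁ y₁) (h₃ : Moments S t (-1) p₃ x₃ y₃) :
    1 / 2 ≤ S.normSq (p₁ - p₃) + S.normSq (y₁ - y₃) := by
  -- the commutator of `p₃` and `x₃`
  have c3 : S.normSq (p₃ * x₃ - x₃ * p₃) = 4 * t ^ 2 := by
    have e1 : p₃ * x₃ - x₃ * p₃ = (2 : ℂ) • (p₃ * x₃) + -(p₃ * x₃ + x₃ * p₃) := by
      rw [two_smul]; abel
    simp only [BipartiteSpace.normSq]
    rw [e1, φ_add_null S (h₃.null_anti sp₃ sx₃), star_smul, smul_mul_assoc, mul_smul_comm,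
      smul_smul, map_smul, star_mul, sp₃, sx₃, mul_assoc, h₃.xppx, smul_eq_mul]
    simp only [star_ofNat]
    norm_cast
  -- comparison with the commutator of `p₁` and `x₁`
  have c31 : S.normSq (p₃ * x₃ - x₃ * p₃) =
      S.normSq ((p₃ * x₃ - x₃ * p₃) - (p₁ * x₁ - x₁ * p₁)) := by
    have e1 : p₃ * x₃ - x₃ * p₃ =
        ((p₃ * x₃ - x₃ * p₃) - (p₁ * x₁ - x₁ * p₁)) + (p₁ * x₁ - x₁ * p₁) := by abel
    have e2 : S.φ (star (p₃ * x₃ - x₃ * p₃) * (p₃ * x₃ - x₃ * p₃)) =
        S.φ (star ((p₃ * x₃ - x₃ * p₃) - (p₁ * x₁ - x₁ * p₁)) *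
          ((p₃ * x₃ - x₃ * p₃) - (p₁ * x₁ - x₁ * p₁))) := by
      conv_lhs => rw [e1]
      exact φ_add_null S (h₁.null_comm sp₁ sx₁) _
    simp only [BipartiteSpace.normSq, e2]
  have dec : (p₃ * x₃ - x₃ * p₃) - (p₁ * x₁ - x₁ * p₁) =
      ((p₃ - p₁) * x₃ + p₁ * (x₃ - x₁)) + (-((x₃ - x₁) * p₃) + -(x₁ * (p₃ - p₁))) := by
    noncomm_ring
  have nneg : ∀ Z : S.A, S.normSq (-Z) = S.normSq Z := fun Z => by
    simp only [BipartiteSpace.normSq, star_neg, neg_mul_neg]
  have hE : p₃ - p₁ ∈ S.L := sub_mem hp₃ hp₁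
  have hD : x₃ - x₁ ∈ S.L := sub_mem hx₃ hx₁
  have n1 : S.normSq ((p₃ - p₁) * x₃) = t ^ 2 * S.normSq (p₃ - p₁) :=
    normSq_mul_right S hx₃ hE sx₃ (h₃.null_x sx₃)
  have n2 : S.normSq (p₁ * (x₃ - x₁)) = 1 * S.normSq (x₃ - x₁) :=
    normSq_mul_left S hp₁ hD sp₁ (h₁.null_p sp₁)
  have n3 : S.normSq ((x₃ - x₁) * p₃) = 1 * S.normSq (x₃ - x₁) :=
    normSq_mul_right S hp₃ hD sp₃ (h₃.null_p sp₃)
  have n4 : S.normSq (x₁ * (p₃ - p₁)) = t ^ 2 * S.normSq (p₃ - p₁) :=
    normSq_mul_left S hx₁ hE sx₁ (h₁.null_x sx₁)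
  have nD : S.normSq (x₃ - x₁) = t ^ 2 * S.normSq (y₃ - y₁) := by
    have e1 : x₃ - x₁ = ((t : ℂ) • (y₃ - y₁) + (x₃ - (t : ℂ) • y₃)) + -(x₁ - (t : ℂ) • y₁) := by
      rw [smul_sub]; abel
    simp only [BipartiteSpace.normSq]
    rw [e1, φ_add_null S (h₁.null_neg sx₁ sy₁), φ_add_null S (h₃.null_xy sx₃ sy₃), star_smul,
      smul_mul_assoc, mul_smul_comm, smul_smul, map_smul, Complex.star_def, Complex.conj_ofReal,
      ← Complex.ofReal_mul, smul_eq_mul, Complex.re_ofReal_mul]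
    ring
  have s1 := normSq_add_le S ((p₃ - p₁) * x₃ + p₁ * (x₃ - x₁))
    (-((x₃ - x₁) * p₃) + -(x₁ * (p₃ - p₁)))
  have s2 := normSq_add_le S ((p₃ - p₁) * x₃) (p₁ * (x₃ - x₁))
  have s3 := normSq_add_le S (-((x₃ - x₁) * p₃)) (-(x₁ * (p₃ - p₁)))
  rw [← dec, ← c31, c3] at s1
  rw [nneg, nneg, n3, n4, nD] at s3
  rw [n1, n2, nD] at s2
  have s4 : 4 * t ^ 2 ≤ 8 * t ^ 2 * (S.normSq (p₃ - p₁) + S.normSq (y₃ - y₁)) := by
    linarith
  have s5 : S.normSq (p₃ - p₁) = S.normSq (p₁ - p₃) := by rw [← nneg, neg_sub]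
  have s6 : S.normSq (y₃ - y₁) = S.normSq (y₁ - y₃) := by rw [← nneg, neg_sub]
  rw [s5, s6] at s4
  have ht2 : 0 < t ^ 2 := by positivity
  nlinarith

end lower

/-! ### The example -/

section example_

/-- `M₂ ⊗ M₂`, as matrices indexed by pairs. -/
abbrev Mat := CStarMatrix (Fin 2 × Fin 2) (Fin 2 × Fin 2) ℂ

/-- The C*-algebra of functions from the four points `Bool × Bool` to `M₂ ⊗ M₂`. -/
abbrev Alg := Bool × Bool → Mat

/-- Functions with values in `M₂ ⊗ 1`. -/
noncomputable def lft : (Bool × Bool → Matrix (Fin 2) (Fin 2) ℂ) →⋆ₐ[ℂ] Alg where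
  toFun g k := CStarMatrix.ofMatrix (g k ⊗ₖ (1 : Matrix (Fin 2) (Fin 2) ℂ))
  map_one' := by
    funext k
    exact congrArg CStarMatrix.ofMatrix (Matrix.one_kronecker_one (α := ℂ) (m := Fin 2) (n := Fin 2))
  map_mul' g h := by
    funext k
    have := Matrix.mul_kronecker_mul (g k) (h k) (1 : Matrix (Fin 2) (Fin 2) ℂ)
      (1 : Matrix (Fin 2) (Fin 2) ℂ)
    rw [mul_one] at this
    exact congrArg CStarMatrix.ofMatrix this
  map_zero' := by
    funext k
    exact congrArg CStarMatrix.ofMatrix (Matrix.zero_kronecker _)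
  map_add' g h := by
    funext k
    exact congrArg CStarMatrix.ofMatrix (Matrix.add_kronecker (g k) (h k) _)
  commutes' r := by
    funext k
    ext i j
    obtain ⟨i1, i2⟩ := i
    obtain ⟨j1, j2⟩ := j
    simp [CStarMatrix.algebraMap_apply, Matrix.algebraMap_matrix_apply, Matrix.one_apply]
    by_cases h1 : i1 = j1 <;> by_cases h2 : i2 = j2 <;> simp [h1, h2]
  map_star' g := by
    funext k
    have := Matrix.conjTranspose_kronecker (g k) (1 : Matrix (Fin 2) (Fin 2) ℂ)
    rw [Matrix.conjTranspose_one] at this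
    exact congrArg CStarMatrix.ofMatrix this.symm

/-- Functions with values in `1 ⊗ M₂`. -/
noncomputable def rgt : (Bool × Bool → Matrix (Fin 2) (Fin 2) ℂ) →⋆ₐ[ℂ] Alg where
  toFun g k := CStarMatrix.ofMatrix ((1 : Matrix (Fin 2) (Fin 2) ℂ) ⊗ₖ g k)
  map_one' := by
    funext k
    exact congrArg CStarMatrix.ofMatrix (Matrix.one_kronecker_one (α := ℂ) (m := Fin 2) (n := Fin 2))
  map_mul' g h := by
    funext k
    have := Matrix.mul_kronecker_mul (1 : Matrix (Fin 2) (Fin 2) ℂ)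
      (1 : Matrix (Fin 2) (Fin 2) ℂ) (g k) (h k)
    rw [mul_one] at this
    exact congrArg CStarMatrix.ofMatrix this
  map_zero' := by
    funext k
    exact congrArg CStarMatrix.ofMatrix (Matrix.kronecker_zero _)
  map_add' g h := by
    funext k
    exact congrArg CStarMatrix.ofMatrix (Matrix.kronecker_add _ (g k) (h k))
  commutes' r := by
    funext k
    ext i j
    obtain ⟨i1, i2⟩ := i
    obtain ⟨j1, j2⟩ := j
    simp [CStarMatrix.algebraMap_apply, Matrix.algebraMap_matrix_apply, Matrix.one_apply]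
    by_cases h1 : i1 = j1 <;> by_cases h2 : i2 = j2 <;> simp [h1, h2]
  map_star' g := by
    funext k
    have := Matrix.conjTranspose_kronecker (1 : Matrix (Fin 2) (Fin 2) ℂ) (g k)
    rw [Matrix.conjTranspose_one] at this
    exact congrArg CStarMatrix.ofMatrix this.symm

lemma lft_apply (g : Bool × Bool → Matrix (Fin 2) (Fin 2) ℂ) (k : Bool × Bool)
    (i j : Fin 2 × Fin 2) :
    lft g k i j = g k i.1 j.1 * (1 : Matrix (Fin 2) (Fin 2) ℂ) i.2 j.2 := rfl

lemma rgt_apply (g : Bool × Bool → Matrix (Fin 2) (Fin 2) ℂ) (k : Bool × Bool)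
    (i j : Fin 2 × Fin 2) :
    rgt g k i j = (1 : Matrix (Fin 2) (Fin 2) ℂ) i.1 j.1 * g k i.2 j.2 := rfl

/-- The vector state of the maximally entangled vector. -/
noncomputable def ω : Mat →ₗ[ℂ] ℂ where
  toFun m := 1 / 2 * ∑ i : Fin 2, ∑ j : Fin 2, m (i, i) (j, j)
  map_add' a b := by
    simp only [CStarMatrix.add_apply, Finset.sum_add_distrib, mul_add]
  map_smul' c a := by
    simp only [CStarMatrix.smul_apply, smul_eq_mul, ← Finset.mul_sum, RingHom.id_apply]
    ring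

/-- The state: average over the four points of the vector state `ω`. -/
noncomputable def state : Alg →ₗ[ℂ] ℂ where
  toFun f := 1 / 4 * ∑ k : Bool × Bool, ω (f k)
  map_add' a b := by
    simp only [Pi.add_apply, map_add, Finset.sum_add_distrib, mul_add]
  map_smul' c a := by
    simp only [Pi.smul_apply, map_smul, smul_eq_mul, ← Finset.mul_sum, RingHom.id_apply]
    ring

lemma half_nonneg' : (0 : ℂ) ≤ 1 / 2 := by
  rw [show (1 / 2 : ℂ) = ((1 / 2 : ℝ) : ℂ) by norm_num]
  exact_mod_cast (by norm_num : (0 : ℝ) ≤ 1 / 2)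

lemma quarter_nonneg' : (0 : ℂ) ≤ 1 / 4 := by
  rw [show (1 / 4 : ℂ) = ((1 / 4 : ℝ) : ℂ) by norm_num]
  exact_mod_cast (by norm_num : (0 : ℝ) ≤ 1 / 4)

lemma ω_pos (m : Mat) : 0 ≤ ω (star m * m) := by
  have h1 : ω (star m * m) =
      1 / 2 * ∑ a : Fin 2 × Fin 2, star (∑ i : Fin 2, m a (i, i)) * ∑ j : Fin 2, m a (j, j) := by
    show 1 / 2 * ∑ i : Fin 2, ∑ j : Fin 2, (star m * m) (i, i) (j, j) = _
    congr 1
    simp only [CStarMatrix.mul_apply, CStarMatrix.star_apply, star_sum, Finset.sum_mul,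
      Finset.mul_sum]
    rw [Finset.sum_comm' (t' := Finset.univ) (s' := fun _ => Finset.univ) (by simp)]
    rw [Finset.sum_comm]
    rw [Finset.sum_congr rfl fun i _ => Finset.sum_comm]
    rw [Finset.sum_comm]
    exact Finset.sum_congr rfl fun a _ => Finset.sum_comm
  rw [h1]
  refine mul_nonneg half_nonneg' (Finset.sum_nonneg fun a _ => ?_)
  exact star_mul_self_nonneg _

lemma state_pos (f : Alg) : 0 ≤ state (star f * f) := by
  show 0 ≤ 1 / 4 * ∑ k : Bool × Bool, ω ((star f * f) k)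
  exact mul_nonneg quarter_nonneg' (Finset.sum_nonneg fun k _ => ω_pos (f k))

lemma ω_lft (g : Bool × Bool → Matrix (Fin 2) (Fin 2) ℂ) (k : Bool × Bool) :
    ω (lft g k) = 1 / 2 * (g k).trace := by
  show 1 / 2 * ∑ i : Fin 2, ∑ j : Fin 2, lft g k (i, i) (j, j) = _
  simp [lft_apply, Fin.sum_univ_two, Matrix.trace, Matrix.one_apply]

lemma ω_rgt (g : Bool × Bool → Matrix (Fin 2) (Fin 2) ℂ) (k : Bool × Bool) :
    ω (rgt g k) = 1 / 2 * (g k).trace := by
  show 1 / 2 * ∑ i : Fin 2, ∑ j : Fin 2, rgt g k (i, i) (j, j) = _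
  simp [rgt_apply, Fin.sum_univ_two, Matrix.trace, Matrix.one_apply]

lemma state_lft (g : Bool × Bool → Matrix (Fin 2) (Fin 2) ℂ) :
    state (lft g) = 1 / 4 * ∑ k, 1 / 2 * (g k).trace := by
  show 1 / 4 * ∑ k : Bool × Bool, ω (lft g k) = _
  simp only [ω_lft]

lemma state_rgt (g : Bool × Bool → Matrix (Fin 2) (Fin 2) ℂ) :
    state (rgt g) = 1 / 4 * ∑ k, 1 / 2 * (g k).trace := by
  show 1 / 4 * ∑ k : Bool × Bool, ω (rgt g k) = _
  simp only [ω_rgt]

lemma state_one : state 1 = 1 := by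
  rw [← map_one lft, state_lft]
  simp [Matrix.trace_one]

lemma lft_rgt_comm (g h : Bool × Bool → Matrix (Fin 2) (Fin 2) ℂ) :
    lft g * rgt h = rgt h * lft g := by
  funext k
  have h1 := Matrix.mul_kronecker_mul (g k) (1 : Matrix (Fin 2) (Fin 2) ℂ)
    (1 : Matrix (Fin 2) (Fin 2) ℂ) (h k)
  have h2 := Matrix.mul_kronecker_mul (1 : Matrix (Fin 2) (Fin 2) ℂ) (g k) (h k)
    (1 : Matrix (Fin 2) (Fin 2) ℂ)
  rw [mul_one, one_mul] at h1 h2
  exact congrArg CStarMatrix.ofMatrix (h1.symm.trans h2)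

instance : Module.Finite ℂ Mat :=
  inferInstanceAs (Module.Finite ℂ (Matrix (Fin 2 × Fin 2) (Fin 2 × Fin 2) ℂ))

lemma closed_of_star (L : StarSubalgebra ℂ Alg) : IsClosed (L : Set Alg) :=
  Submodule.closed_of_finiteDimensional (Subalgebra.toSubmodule L.toSubalgebra)

/-- The space of the example. -/
noncomputable def Sp : BipartiteSpace where
  A := Alg
  L := lft.range
  R := rgt.range
  closed_L := closed_of_star _
  closed_R := closed_of_star _
  comm := by
    rintro _ ⟨g, rfl⟩ _ ⟨h, rfl⟩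
    exact lft_rgt_comm g h
  φ := state
  φ_one := state_one
  φ_pos := state_pos
  trace_L := by
    rintro _ ⟨g, rfl⟩ _ ⟨h, rfl⟩
    show state (lft g * lft h) = state (lft h * lft g)
    rw [← map_mul, ← map_mul, state_lft, state_lft]
    refine congrArg _ (Finset.sum_congr rfl fun k _ => ?_)
    rw [Pi.mul_apply, Pi.mul_apply, Matrix.trace_mul_comm]
  trace_R := by
    rintro _ ⟨g, rfl⟩ _ ⟨h, rfl⟩
    show state (rgt g * rgt h) = state (rgt h * rgt g)
    rw [← map_mul, ← map_mul, state_rgt, state_rgt]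
    refine congrArg _ (Finset.sum_congr rfl fun k _ => ?_)
    rw [Pi.mul_apply, Pi.mul_apply, Matrix.trace_mul_comm]

end example_

/-! ### Moments of the systems -/

section moments

variable {S : BipartiteSpace}

lemma Moments.of_rel {t ε : ℝ} (hε : (ε : ℂ) ^ 2 = 1) {p q y : S.A} (hpp : p * p = 1) (hqq : q * q = 1)
    (hyy : y * y = 1) (hqp : q * p = (ε : ℂ) • (p * q)) (hqy : S.φ (q * y) = 1)
    (hyq : S.φ (y * q) = 1) : Moments S t ε p ((t : ℂ) • q) y := by
  have hpp' : ∀ z, p * (p * z) = z := fun z => by rw [← mul_assoc, hpp, one_mul]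
  have hqp' : ∀ z, q * (p * z) = (ε : ℂ) • (p * (q * z)) := fun z => by
    rw [← mul_assoc, hqp, smul_mul_assoc, mul_assoc]
  constructor <;>
  simp only [smul_mul_assoc, mul_smul_comm, smul_smul, hpp', hqp', hpp, hqq, hyy, hqp,
    map_smul, S.φ_one, hqy, hyq, smul_eq_mul, mul_one] <;>
  first
  | ring1
  | linear_combination ((t : ℂ) ^ 2) * hε

lemma Moments.transfer {S' : BipartiteSpace} {t ε : ℝ} {T' : BiSystem S' 2 1}
    {T : BiSystem S 2 1} (h : ∀ w, T'.moment w = T.moment w)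
    (hT : Moments S t ε (T.X 0) (T.X 1) (T.Y 0)) :
    Moments S' t ε (T'.X 0) (T'.X 1) (T'.Y 0) where
  pp := by
    have := h [Sum.inl 0, Sum.inl 0]
    simp [BiSystem.moment, BiSystem.op, hT.pp] at this
    exact this
  pppp := by
    have := h [Sum.inl 0, Sum.inl 0, Sum.inl 0, Sum.inl 0]
    simp [BiSystem.moment, BiSystem.op, hT.pppp] at this
    exact this
  xx := by
    have := h [Sum.inl 1, Sum.inl 1]
    simp [BiSystem.moment, BiSystem.op, hT.xx] at this
    exact this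
  xxxx := by
    have := h [Sum.inl 1, Sum.inl 1, Sum.inl 1, Sum.inl 1]
    simp [BiSystem.moment, BiSystem.op, hT.xxxx] at this
    exact this
  xy := by
    have := h [Sum.inl 1, Sum.inr 0]
    simp [BiSystem.moment, BiSystem.op, hT.xy] at this
    exact this
  yx := by
    have := h [Sum.inr 0, Sum.inl 1]
    simp [BiSystem.moment, BiSystem.op, hT.yx] at this
    exact this
  yy := by
    have := h [Sum.inr 0, Sum.inr 0]
    simp [BiSystem.moment, BiSystem.op, hT.yy] at this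
    exact this
  xppx := by
    have := h [Sum.inl 1, Sum.inl 0, Sum.inl 0, Sum.inl 1]
    simp [BiSystem.moment, BiSystem.op, hT.xppx] at this
    exact this
  xpxp := by
    have := h [Sum.inl 1, Sum.inl 0, Sum.inl 1, Sum.inl 0]
    simp [BiSystem.moment, BiSystem.op, hT.xpxp] at this
    exact this
  pxpx := by
    have := h [Sum.inl 0, Sum.inl 1, Sum.inl 0, Sum.inl 1]
    simp [BiSystem.moment, BiSystem.op, hT.pxpx] at this
    exact this
  pxxp := by
    have := h [Sum.inl 0, Sum.inl 1, Sum.inl 1, Sum.inl 0]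
    simp [BiSystem.moment, BiSystem.op, hT.pxxp] at this
    exact this

/-- Parities of the numbers of letters `X 0` and `Y 0` in a word without letter `X 1`. -/
def par : List (Fin 2 ⊕ Fin 1) → Option (Bool × Bool)
  | [] => some (false, false)
  | Sum.inl i :: w => if i = 0 then (par w).map (fun c => (!c.1, c.2)) else none
  | Sum.inr _ :: w => (par w).map (fun c => (c.1, !c.2))

/-- The product of a word with given parities. -/
noncomputable def val (U V : S.A) : Option (Bool × Bool) → S.A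
  | none => 0
  | some c => (if c.1 then U else 1) * (if c.2 then V else 1)

/-- The moment of a word with given parities. -/
noncomputable def mom : Option (Bool × Bool) → ℂ
  | none => 0
  | some c => if c.1 || c.2 then 0 else 1

lemma prod_eq_val (T : BiSystem S 2 1) (hU : T.X 0 * T.X 0 = 1) (h0 : T.X 1 = 0)
    (hV : T.Y 0 * T.Y 0 = 1) (w : List (Fin 2 ⊕ Fin 1)) :
    (w.map T.op).prod = val (T.X 0) (T.Y 0) (par w) := by
  have hUV : T.X 0 * T.Y 0 = T.Y 0 * T.X 0 := S.comm _ (T.X_mem 0) _ (T.Y_mem 0)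
  induction w with
  | nil => simp [par, val]
  | cons a w ih =>
    rw [List.map_cons, List.prod_cons, ih]
    rcases a with i | j
    · fin_cases i
      · show T.X 0 * _ = _
        cases hp : par w with
        | none => simp [par, hp, val]
        | some c =>
          obtain ⟨a, b⟩ := c
          cases a <;> cases b <;> simp [par, hp, val, hU, ← mul_assoc]
      · show T.X 1 * _ = _
        simp [par, val, h0]
    · have hj : j = 0 := Subsingleton.elim _ _
      subst hj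
      show T.Y 0 * _ = _
      cases hp : par w with
      | none => simp [par, hp, val]
      | some c =>
        obtain ⟨a, b⟩ := c
        cases a <;> cases b <;> simp [par, hp, val, hV, ← mul_assoc, ← hUV]
        rw [mul_assoc, hV, mul_one]

lemma moment_eq_mom (T : BiSystem S 2 1) (hU : T.X 0 * T.X 0 = 1) (h0 : T.X 1 = 0)
    (hV : T.Y 0 * T.Y 0 = 1) (fU : S.φ (T.X 0) = 0) (fV : S.φ (T.Y 0) = 0)
    (fUV : S.φ (T.X 0 * T.Y 0) = 0) (w : List (Fin 2 ⊕ Fin 1)) :
    T.moment w = mom (par w) := by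
  rw [BiSystem.moment, prod_eq_val T hU h0 hV]
  cases hp : par w with
  | none => simp [val, mom]
  | some c =>
    obtain ⟨a, b⟩ := c
    cases a <;> cases b <;> simp [val, mom, fU, fV, fUV, S.φ_one]

end moments

/-! ### The three systems -/

section systems

/-- A sign. -/
noncomputable def sg (b : Bool) : ℂ := if b then 1 else -1

/-- The first fair bit. -/
noncomputable def eP (k : Bool × Bool) : Matrix (Fin 2) (Fin 2) ℂ := sg k.1 • 1
/-- The second fair bit. -/
noncomputable def eQ (k : Bool × Bool) : Matrix (Fin 2) (Fin 2) ℂ := sg k.2 • 1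
/-- Pauli matrix. -/
noncomputable def sx (_ : Bool × Bool) : Matrix (Fin 2) (Fin 2) ℂ := !![0, 1; 1, 0]
/-- Pauli matrix. -/
noncomputable def sz (_ : Bool × Bool) : Matrix (Fin 2) (Fin 2) ℂ := !![1, 0; 0, -1]

lemma sg_mul (b : Bool) : sg b * sg b = 1 := by cases b <;> simp [sg]
lemma sg_star (b : Bool) : star (sg b) = sg b := by cases b <;> simp [sg]

lemma eP_mul : eP * eP = 1 := by
  funext k; simp [eP, smul_smul, sg_mul]
lemma eQ_mul : eQ * eQ = 1 := by
  funext k; simp [eQ, smul_smul, sg_mul]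
lemma sx_mul : sx * sx = 1 := by
  funext k; simp [sx, Matrix.one_fin_two]
lemma sz_mul : sz * sz = 1 := by
  funext k; simp [sz, Matrix.one_fin_two]
lemma eP_star : star eP = eP := by
  funext k; simp [eP, star_smul, sg_star]
lemma eQ_star : star eQ = eQ := by
  funext k; simp [eQ, star_smul, sg_star]
lemma sx_star : star sx = sx := by
  funext k; ext i j; fin_cases i <;> fin_cases j <;> simp [sx, Matrix.star_apply]
lemma sz_star : star sz = sz := by
  funext k; ext i j; fin_cases i <;> fin_cases j <;> simp [sz, Matrix.star_apply]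

lemma lft_eQ : lft eQ = rgt eQ := by
  funext k; ext i j
  obtain ⟨i1, i2⟩ := i
  obtain ⟨j1, j2⟩ := j
  rw [lft_apply, rgt_apply]
  simp [eQ, Matrix.one_apply]

/-- The system `(P, t Q; Q)` with `P`, `Q` independent fair bits. -/
noncomputable def T₁ (t : ℝ) : BiSystem Sp 2 1 where
  X := ![lft eP, (t : ℂ) • lft eQ]
  Y := ![rgt eQ]
  X_mem i := by
    fin_cases i
    · exact ⟨eP, rfl⟩
    · exact ⟨(t : ℂ) • eQ, map_smul lft _ _⟩
  Y_mem j := by
    fin_cases j
    exact ⟨eQ, rfl⟩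
  X_star i := by
    fin_cases i
    · show star (lft eP) = lft eP
      rw [← map_star, eP_star]
    · show star ((t : ℂ) • lft eQ) = (t : ℂ) • lft eQ
      rw [star_smul, ← map_star, eQ_star, Complex.star_def, Complex.conj_ofReal]
  Y_star j := by
    fin_cases j
    show star (rgt eQ) = rgt eQ
    rw [← map_star, eQ_star]

/-- The system `(σx ⊗ 1, t σz ⊗ 1; 1 ⊗ σz)` in the maximally entangled state. -/
noncomputable def T₃ (t : ℝ) : BiSystem Sp 2 1 where
  X := ![lft sx, (t : ℂ) • lft sz]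
  Y := ![rgt sz]
  X_mem i := by
    fin_cases i
    · exact ⟨sx, rfl⟩
    · exact ⟨(t : ℂ) • sz, map_smul lft _ _⟩
  Y_mem j := by
    fin_cases j
    exact ⟨sz, rfl⟩
  X_star i := by
    fin_cases i
    · show star (lft sx) = lft sx
      rw [← map_star, sx_star]
    · show star ((t : ℂ) • lft sz) = (t : ℂ) • lft sz
      rw [star_smul, ← map_star, sz_star, Complex.star_def, Complex.conj_ofReal]
  Y_star j := by
    fin_cases j
    show star (rgt sz) = rgt sz
    rw [← map_star, sz_star]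

lemma state_of_trace {g : Bool × Bool → Matrix (Fin 2) (Fin 2) ℂ} {c : ℂ}
    (h : ∑ k, (g k).trace = c) : state (lft g) = 1 / 8 * c ∧ state (rgt g) = 1 / 8 * c := by
  rw [state_lft, state_rgt, ← Finset.mul_sum, h]
  constructor <;> ring

lemma state_lft_rgt (g h : Bool × Bool → Matrix (Fin 2) (Fin 2) ℂ) :
    state (lft g * rgt h) = 1 / 4 * ∑ k, 1 / 2 * ∑ i : Fin 2, ∑ j : Fin 2, g k i j * h k i j := by
  show 1 / 4 * ∑ k : Bool × Bool, ω ((lft g * rgt h) k) = _
  refine congrArg _ (Finset.sum_congr rfl fun k _ => ?_)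
  have h1 : (lft g * rgt h) k = CStarMatrix.ofMatrix (g k ⊗ₖ h k) := by
    have h1 := Matrix.mul_kronecker_mul (g k) (1 : Matrix (Fin 2) (Fin 2) ℂ)
      (1 : Matrix (Fin 2) (Fin 2) ℂ) (h k)
    rw [mul_one, one_mul] at h1
    exact congrArg CStarMatrix.ofMatrix h1.symm
  rw [h1]
  rfl

lemma trace_eP : ∑ k, (eP k).trace = 0 := by
  simp [Fintype.sum_prod_type, eP, sg]
lemma trace_eQ : ∑ k, (eQ k).trace = 0 := by
  simp [Fintype.sum_prod_type, eQ, sg]
lemma trace_sx : ∑ k, (sx k).trace = 0 := by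
  simp [sx, Matrix.trace_fin_two]
lemma trace_sz : ∑ k, (sz k).trace = 0 := by
  simp [sz, Matrix.trace_fin_two]

lemma fP : state (lft eP) = 0 := by rw [(state_of_trace trace_eP).1, mul_zero]
lemma fx : state (lft sx) = 0 := by rw [(state_of_trace trace_sx).1, mul_zero]
lemma fQ : state (rgt eQ) = 0 := by rw [(state_of_trace trace_eQ).2, mul_zero]
lemma fz : state (rgt sz) = 0 := by rw [(state_of_trace trace_sz).2, mul_zero]
lemma fPQ : state (lft eP * rgt eQ) = 0 := by
  rw [state_lft_rgt]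
  simp [Fintype.sum_prod_type, eP, eQ, sg, Fin.sum_univ_two]
lemma fxz : state (lft sx * rgt sz) = 0 := by
  rw [state_lft_rgt]
  simp [sx, sz, Fin.sum_univ_two]
lemma fzz : state (lft sz * rgt sz) = 1 := by
  rw [state_lft_rgt]
  simp [sz, Fin.sum_univ_two]
  norm_num

lemma lft_sq {g : Bool × Bool → Matrix (Fin 2) (Fin 2) ℂ} (h : g * g = 1) :
    lft g * lft g = 1 := by rw [← map_mul, h, map_one]
lemma rgt_sq {g : Bool × Bool → Matrix (Fin 2) (Fin 2) ℂ} (h : g * g = 1) :
    rgt g * rgt g = 1 := by rw [← map_mul, h, map_one]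

lemma moments₁ (t : ℝ) : Moments Sp t 1 ((T₁ t).X 0) ((T₁ t).X 1) ((T₁ t).Y 0) := by
  refine Moments.of_rel (S := Sp) (by norm_num) (p := lft eP) (q := lft eQ) (y := rgt eQ)
    (lft_sq eP_mul) (lft_sq eQ_mul) (rgt_sq eQ_mul) ?_ ?_ ?_
  · show lft eQ * lft eP = ((1 : ℝ) : ℂ) • (lft eP * lft eQ)
    rw [Complex.ofReal_one, one_smul, ← map_mul, ← map_mul]
    congr 1
    funext k
    simp [eP, eQ, smul_smul, mul_comm]
  · show state (lft eQ * rgt eQ) = 1
    rw [lft_eQ, rgt_sq eQ_mul, state_one]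
  · show state (rgt eQ * lft eQ) = 1
    rw [lft_eQ, rgt_sq eQ_mul, state_one]

lemma moments₃ (t : ℝ) : Moments Sp t (-1) ((T₃ t).X 0) ((T₃ t).X 1) ((T₃ t).Y 0) := by
  refine Moments.of_rel (S := Sp) (by norm_num) (p := lft sx) (q := lft sz) (y := rgt sz)
    (lft_sq sx_mul) (lft_sq sz_mul) (rgt_sq sz_mul) ?_ fzz ?_
  · show lft sz * lft sx = ((-1 : ℝ) : ℂ) • (lft sx * lft sz)
    rw [Complex.ofReal_neg, Complex.ofReal_one, neg_smul, one_smul, ← map_mul, ← map_mul,
      ← map_neg]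
    congr 1
    funext k
    simp [sx, sz]
  · show state (rgt sz * lft sz) = 1
    rw [← lft_rgt_comm]
    exact fzz

end systems

/-! ### The second system and its copies -/

section final

/-- The system `(P, 0; Q)`. -/
noncomputable def T₂ : BiSystem Sp 2 1 where
  X := ![lft eP, 0]
  Y := ![rgt eQ]
  X_mem i := by
    fin_cases i
    · exact ⟨eP, rfl⟩
    · exact ⟨0, map_zero lft⟩
  Y_mem j := by
    fin_cases j
    exact ⟨eQ, rfl⟩
  X_star i := by
    fin_cases i
    · show star (lft eP) = lft eP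
      rw [← map_star, eP_star]
    · exact star_zero _
  Y_star j := by
    fin_cases j
    show star (rgt eQ) = rgt eQ
    rw [← map_star, eQ_star]

/-- The system `(σx ⊗ 1, 0; 1 ⊗ σz)`. -/
noncomputable def T₂' : BiSystem Sp 2 1 where
  X := ![lft sx, 0]
  Y := ![rgt sz]
  X_mem i := by
    fin_cases i
    · exact ⟨sx, rfl⟩
    · exact ⟨0, map_zero lft⟩
  Y_mem j := by
    fin_cases j
    exact ⟨sz, rfl⟩
  X_star i := by
    fin_cases i
    · show star (lft sx) = lft sx
      rw [← map_star, sx_star]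
    · exact star_zero _
  Y_star j := by
    fin_cases j
    show star (rgt sz) = rgt sz
    rw [← map_star, sz_star]

lemma norm_one_of {u : Alg} (h1 : u * u = 1) (h2 : star u = u) : ‖u‖ = 1 := by
  have : u ∈ unitary Alg := by
    rw [Unitary.mem_iff, h2]
    exact ⟨h1, h1⟩
  exact CStarRing.norm_of_mem_unitary this

lemma copy₂ : T₂'.IsCopy T₂ := by
  constructor
  · intro w
    rw [moment_eq_mom T₂ (lft_sq eP_mul) rfl (rgt_sq eQ_mul) fP fQ fPQ,
      moment_eq_mom T₂' (lft_sq sx_mul) rfl (rgt_sq sz_mul) fx fz fxz]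
  · intro k
    rcases k with i | j
    · fin_cases i
      · show ‖lft sx‖ = ‖lft eP‖
        rw [norm_one_of (lft_sq sx_mul) (by rw [← map_star, sx_star]),
          norm_one_of (lft_sq eP_mul) (by rw [← map_star, eP_star])]
      · rfl
    · fin_cases j
      show ‖rgt sz‖ = ‖rgt eQ‖
      rw [norm_one_of (rgt_sq sz_mul) (by rw [← map_star, sz_star]),
        norm_one_of (rgt_sq eQ_mul) (by rw [← map_star, eQ_star])]

lemma isCopy_refl {S : BipartiteSpace} {n m : ℕ} (T : BiSystem S n m) : T.IsCopy T :=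
  ⟨fun _ => rfl, fun _ => rfl⟩

lemma cost_nonneg {S : BipartiteSpace} {n m : ℕ} (T T' : BiSystem S n m) : 0 ≤ T.cost T' :=
  Real.sqrt_nonneg _

lemma W₂_le {S S₁ S₂ : BipartiteSpace} {n m : ℕ} {T₁ : BiSystem S₁ n m} {T₂ : BiSystem S₂ n m}
    {T₁' T₂' : BiSystem S n m} (h₁ : T₁'.IsCopy T₁) (h₂ : T₂'.IsCopy T₂) :
    W₂ T₁ T₂ ≤ T₁'.cost T₂' := by
  refine csInf_le ⟨0, ?_⟩ ⟨S, T₁', T₂', h₁, h₂, rfl⟩
  rintro _ ⟨S, U, V, -, -, rfl⟩
  exact cost_nonneg _ _

lemma normSq_zero' : Sp.normSq 0 = 0 := by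
  simp [BipartiteSpace.normSq]

lemma normSq_smul_of {t : ℝ} {u : Alg} (h1 : u * u = 1) (h2 : star u = u) :
    Sp.normSq ((t : ℂ) • u) = t ^ 2 := by
  have h3 : star ((t : ℂ) • u) * ((t : ℂ) • u) = ((t : ℂ) * t) • (1 : Alg) := by
    rw [star_smul, smul_mul_assoc, mul_smul_comm, smul_smul, h2, h1, Complex.star_def,
      Complex.conj_ofReal]
  have h4 : Sp.normSq ((t : ℂ) • u) = (state (star ((t : ℂ) • u) * ((t : ℂ) • u))).re := rfl
  rw [h4, h3, map_smul, state_one]
  simp [sq]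

lemma cost₁₂ {t : ℝ} (ht : 0 ≤ t) : (T₁ t).cost T₂ = t := by
  have h : ∑ i, Sp.normSq ((T₁ t).X i - T₂.X i) + ∑ j, Sp.normSq ((T₁ t).Y j - T₂.Y j) = t ^ 2 := by
    rw [Fin.sum_univ_two, Fin.sum_univ_one]
    have e0 : (T₁ t).X 0 - T₂.X 0 = 0 := sub_self _
    have e1 : (T₁ t).X 1 - T₂.X 1 = (t : ℂ) • lft eQ := sub_zero _
    have e2 : (T₁ t).Y 0 - T₂.Y 0 = 0 := sub_self _
    rw [e0, e1, e2, normSq_zero',
      normSq_smul_of (lft_sq eQ_mul) (by rw [← map_star, eQ_star])]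
    ring
  rw [BiSystem.cost, h, Real.sqrt_sq ht]

lemma cost₂₃ {t : ℝ} (ht : 0 ≤ t) : T₂'.cost (T₃ t) = t := by
  have h : ∑ i, Sp.normSq (T₂'.X i - (T₃ t).X i) + ∑ j, Sp.normSq (T₂'.Y j - (T₃ t).Y j)
      = t ^ 2 := by
    rw [Fin.sum_univ_two, Fin.sum_univ_one]
    have e0 : T₂'.X 0 - (T₃ t).X 0 = 0 := sub_self _
    have e1 : T₂'.X 1 - (T₃ t).X 1 = (((-t : ℝ)) : ℂ) • lft sz := by
      rw [Complex.ofReal_neg, neg_smul]
      exact zero_sub _
    have e2 : T₂'.Y 0 - (T₃ t).Y 0 = 0 := sub_self _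
    rw [e0, e1, e2, normSq_zero',
      normSq_smul_of (lft_sq sz_mul) (by rw [← map_star, sz_star])]
    ring
  rw [BiSystem.cost, h, Real.sqrt_sq ht]

lemma W₁₃ {t : ℝ} (ht : 0 < t) : Real.sqrt (1 / 2) ≤ W₂ (T₁ t) (T₃ t) := by
  refine le_csInf ⟨_, Sp, T₁ t, T₃ t, isCopy_refl _, isCopy_refl _, rfl⟩ ?_
  rintro _ ⟨S, U, V, hU, hV, rfl⟩
  refine Real.sqrt_le_sqrt ?_
  have h1 := Moments.transfer hU.1 (moments₁ t)
  have h3 := Moments.transfer hV.1 (moments₃ t)
  have h := lower_bound ht (U.X_mem 0) (U.X_mem 1) (V.X_mem 0) (V.X_mem 1) (U.X_star 0)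
    (U.X_star 1) (U.Y_star 0) (V.X_star 0) (V.X_star 1) (V.Y_star 0) h1 h3
  rw [Fin.sum_univ_two, Fin.sum_univ_one]
  have h4 := normSq_nonneg S (U.X 1 - V.X 1)
  linarith

/-- **The triangle inequality fails for the bi-free Wasserstein distance.**  There is a
left-right, tracially bi-partite C*-probability space with three tracially bi-partite systems
`T₁`, `T₂`, `T₃` with two left variables and one right variable such that
`W₂ T₁ T₂ + W₂ T₂ T₃ < W₂ T₁ T₃`. -/
theorem result :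
    ∃ (S : BipartiteSpace) (T₁ T₂ T₃ : BiSystem S 2 1), W₂ T₁ T₂ + W₂ T₂ T₃ < W₂ T₁ T₃ := by
  refine ⟨Sp, T₁ (1 / 4), T₂, T₃ (1 / 4), ?_⟩
  have h12 := W₂_le (isCopy_refl (T₁ (1 / 4))) (isCopy_refl T₂)
  have h23 := W₂_le copy₂ (isCopy_refl (T₃ (1 / 4)))
  rw [cost₁₂ (by norm_num)] at h12
  rw [cost₂₃ (by norm_num)] at h23
  have h13 := W₁₃ (t := 1 / 4) (by norm_num)
  have h5 : (1 / 2 : ℝ) < Real.sqrt (1 / 2) := by
    rw [Real.lt_sqrt (by norm_num)]
    norm_num
  linarith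

end final

end Pool.Agent.Results.MP_fc6efe_an.TriangleFails
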